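import Pool.Agent.H87.F5.Asm

set_option autoImplicit false

/-! MP_2e6055, module F5: CHT7 (the chart and the row of the ray). -/

namespace Pool.Agent.H15.F5

open Pool.Agent.H7.UC Pool.Agent.H74.Tri Pool.Agent.H75.Perc Pool.Agent.H75.Lv Pool.Agent.H55.Lane
open Pool.Agent.H53.Per Pool.Agent.H87.F5

theorem cht7 : CHT7 := by
  intro U ω p v z0 R t b k e hst htip hph hbox ht hk he hb hR hv htb
  have h1 := hph
  rw [Pool.Agent.H75.Lv.mem_Bx] at h1
  -- the face ahead is on the boundary layer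
  have hbd : |(ph p).1 - v.1| = R ∨ |(ph p).2 - v.2| = R := by
    by_contra hcon
    push Not at hcon
    apply htip.2.1
    apply hbox
    have had := adj_hl p
    rw [adjF_iff] at had
    rw [Pool.Agent.H75.Lv.mem_Bx]
    simp only [abs_le] at h1 ⊢
    have h2 : (ph p).1 - v.1 ≠ R ∧ (ph p).1 - v.1 ≠ -R ∧ (ph p).2 - v.2 ≠ R ∧
        (ph p).2 - v.2 ≠ -R := by
      refine ⟨fun h => hcon.1 ?_, fun h => hcon.1 ?_, fun h => hcon.2 ?_, fun h => hcon.2 ?_⟩ <;>
        rw [h] <;> simp [abs_of_nonneg (show (0 : ℤ) ≤ R by omega)]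
    omega
  obtain ⟨C, hc, hx, hy⟩ := Ch.exists_chart z0 v (ph p) R hbd
  have h3 := (C.mem_Bx (ph p) v R).1 hph
  have h4 := (C.mem_Bx v z0 e).1 hv
  rw [← hc, C.X_c, C.Y_c, sub_zero, sub_zero, abs_le, abs_le] at h4
  rw [abs_le, abs_le] at h3
  refine ⟨C, if C.Y (ph p) > C.Y v + R - 2 * t then C.Y v + R - 2 * t else C.Y (ph p), ?_, hc, ?_⟩
  · refine ⟨hst, htip, hbox, by omega, by omega, hx, by rw [abs_le]; omega, ?_, ?_, htb⟩
    · split_ifs <;> rw [abs_le] <;> omega
    · split_ifs with h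
      · have : |C.Y v + R - 2 * t - C.Y v| = R - 2 * t := by
          rw [abs_of_nonneg (by omega)]; ring
        rw [this]; omega
      · have : |C.Y (ph p) - C.Y v| ≤ R - 2 * t := by rw [abs_le]; omega
        omega
  · refine ⟨ht, hk, he, hb, hR, by rw [abs_le]; omega, by rw [abs_le]; omega, hx,
      by rw [abs_le]; omega, hy, ?_, ?_, ?_⟩
    · split_ifs <;> omega
    · split_ifs <;> rw [abs_le] <;> omega
    · split_ifs with h
      · have : |C.Y v + R - 2 * t - C.Y v| = R - 2 * t := by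
          rw [abs_of_nonneg (by omega)]; ring
        rw [this]; omega
      · have : |C.Y (ph p) - C.Y v| ≤ R - 2 * t := by rw [abs_le]; omega
        omega

end Pool.Agent.H15.F5
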